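import Pool.Agent.Helper76.SGA.Goals

/-!
# Packet SGA-RDEG: degrees of the resultant
-/

set_option autoImplicit false

open MvPolynomial

namespace Pool.Agent.Helper89.SGA

open Pool.Agent.Helper92.Ru Pool.Agent.Helper76.SGA

theorem rdeg (h1 : SEP) : RDEG := by
  intro k _ m N d f g h hf hg
  classical
  obtain ⟨-, -, -, -, -, hc, -⟩ := h1 k m
  have hent : ∀ i j, degreeOf h (Polynomial.sylvester (sepL k m f) (sepL k m g) N N i j) ≤ d := by
    intro i j
    unfold Polynomial.sylvester
    rw [Matrix.of_apply]
    induction j using Fin.addCases with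
    | left j =>
      rw [Fin.addCases_left]
      split_ifs
      · exact (hc g _ h).trans hg
      · simp
    | right j =>
      rw [Fin.addCases_right]
      split_ifs
      · exact (hc f _ h).trans hf
      · simp
  unfold Polynomial.resultant
  rw [Matrix.det_apply]
  refine (degreeOf_sum_le _ _ _).trans (Finset.sup_le fun π _ => ?_)
  have h1 : degreeOf h (Equiv.Perm.sign π •
      ∏ i, Polynomial.sylvester (sepL k m f) (sepL k m g) N N (π i) i) ≤
      degreeOf h (∏ i, Polynomial.sylvester (sepL k m f) (sepL k m g) N N (π i) i) := by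
    rcases Int.units_eq_one_or (Equiv.Perm.sign π) with h2 | h2
    · rw [h2, one_smul]
    · rw [h2]
      simp
  refine h1.trans ((degreeOf_prod_le _ _ _).trans ?_)
  refine (Finset.sum_le_card_nsmul _ _ d fun i _ => hent _ _).trans ?_
  rw [Finset.card_univ, Fintype.card_fin, smul_eq_mul]
  exact le_of_eq (by ring)

end Pool.Agent.Helper89.SGA
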